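import Pool.Agent.N922.PY.Stm

/-!
# Gauss' lemma for `ℤ_2[x, y] / (y ^ 2 - f)` (PROJECT PY)
-/

set_option autoImplicit false
set_option linter.all false

open Polynomial
open scoped Classical

namespace Pool.Agent.N265.PYGAU

open Pool.Agent.N922.PY
open Pool.Agent.Y723.HJ (CR OddM HF clmap mapR CC mi bar nm cl)

lemma oddM_r2 {f : ℤ_[2][X]} (hf : f.Monic) (hd : f.natDegree = 5) : OddM (r2 f) :=
  ⟨hf.map _, by rw [hf.natDegree_map, hd]; decide⟩

lemma oddM_fK {f : ℤ_[2][X]} (hf : f.Monic) (hd : f.natDegree = 5) : OddM (fK f) :=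
  ⟨hf.map _, by rw [hf.natDegree_map, hd]; decide⟩

theorem part1 {f : ℤ_[2][X]} (hf : f.Monic) (hd : f.natDegree = 5)
    (z w : QuadraticAlgebra (ZMod 2)[X] (r2 f) 0) (h : z * w = 0) : z = 0 ∨ w = 0 := by
  haveI : OddM (r2 f) := oddM_r2 hf hd
  by_contra hc
  push Not at hc
  have h1 := mul_ne_zero (Pool.Agent.Y723.HJ.norm_ne (f := r2 f) hc.1)
    (Pool.Agent.Y723.HJ.norm_ne (f := r2 f) hc.2)
  rw [← map_mul, h, QuadraticAlgebra.norm_zero] at h1
  exact h1 rfl

lemma toZMod_zero {x : ℤ_[2]} (h : ‖x‖ < 1) : PadicInt.toZMod (p := 2) x = 0 := by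
  have h2 : x ∈ RingHom.ker (PadicInt.toZMod (p := 2)) := by
    rw [PadicInt.ker_toZMod, IsLocalRing.mem_maximalIdeal]
    exact PadicInt.mem_nonunits.2 h
  exact h2

lemma lift_poly (p : ℚ_[2][X]) (h : ∀ n, ‖p.coeff n‖ ≤ 1) :
    ∃ q : ℤ_[2][X], q.map (algebraMap ℤ_[2] ℚ_[2]) = p := by
  have h1 : p ∈ Polynomial.lifts (algebraMap ℤ_[2] ℚ_[2]) := by
    rw [Polynomial.lifts_iff_coeff_lifts]
    intro n
    exact ⟨⟨p.coeff n, h n⟩, rfl⟩
  obtain ⟨q, hq⟩ := (Polynomial.mem_lifts _).1 h1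
  exact ⟨q, hq⟩

lemma inj_alg : Function.Injective (algebraMap ℤ_[2] ℚ_[2]) :=
  IsFractionRing.injective ℤ_[2] ℚ_[2]

lemma CC_mul {f : ℚ_[2][X]} (c : ℚ_[2]) (z : CR f) :
    CC f (C c) * z = ⟨C c * z.re, C c * z.im⟩ := by
  refine QuadraticAlgebra.ext ?_ ?_
  · rw [QuadraticAlgebra.re_mul, Pool.Agent.Y723.HJ.CC_re, Pool.Agent.Y723.HJ.CC_im]
    ring
  · rw [QuadraticAlgebra.im_mul, Pool.Agent.Y723.HJ.CC_re, Pool.Agent.Y723.HJ.CC_im]
    ring

theorem part2 {f : ℤ_[2][X]} (z : CR (fK f)) (hz : z ≠ 0) :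
    ∃ (c : ℚ_[2]) (z' : AA f), c ≠ 0 ∧ to2 f z' ≠ 0 ∧ toK f z' = CC (fK f) (C c) * z := by
  set S : Finset ℚ_[2] := z.re.support.image z.re.coeff ∪ z.im.support.image z.im.coeff with hS
  have hmem : ∀ x ∈ S, x ≠ 0 ∧ ((∃ n, x = z.re.coeff n) ∨ ∃ n, x = z.im.coeff n) := by
    intro x hx
    rw [hS, Finset.mem_union, Finset.mem_image, Finset.mem_image] at hx
    rcases hx with ⟨n, hn, rfl⟩ | ⟨n, hn, rfl⟩
    · exact ⟨mem_support_iff.1 hn, Or.inl ⟨n, rfl⟩⟩
    · exact ⟨mem_support_iff.1 hn, Or.inr ⟨n, rfl⟩⟩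
  have hne : S.Nonempty := by
    by_contra hc
    rw [Finset.not_nonempty_iff_eq_empty] at hc
    apply hz
    have h1 : z.re = 0 := by
      ext n
      by_contra h2
      have h3 : z.re.coeff n ∈ S := by
        rw [hS, Finset.mem_union]
        left
        exact Finset.mem_image_of_mem _ (mem_support_iff.2 (by simpa using h2))
      rw [hc] at h3
      exact absurd h3 (Finset.notMem_empty _)
    have h1' : z.im = 0 := by
      ext n
      by_contra h2
      have h3 : z.im.coeff n ∈ S := by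
        rw [hS, Finset.mem_union]
        right
        exact Finset.mem_image_of_mem _ (mem_support_iff.2 (by simpa using h2))
      rw [hc] at h3
      exact absurd h3 (Finset.notMem_empty _)
    exact QuadraticAlgebra.ext h1 h1'
  obtain ⟨q, hq, hmax⟩ := Finset.exists_max_image S (fun x => ‖x‖) hne
  obtain ⟨hq0, hqc⟩ := hmem q hq
  have hqn : 0 < ‖q‖ := norm_pos_iff.2 hq0
  have hre : ∀ n, ‖(C q⁻¹ * z.re).coeff n‖ ≤ 1 := by
    intro n
    rw [coeff_C_mul, norm_mul, norm_inv]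
    by_cases h0 : z.re.coeff n = 0
    · rw [h0, norm_zero, mul_zero]
      exact zero_le_one
    · have h3 : z.re.coeff n ∈ S := by
        rw [hS, Finset.mem_union]
        left
        exact Finset.mem_image_of_mem _ (mem_support_iff.2 h0)
      rw [inv_mul_le_iff₀ hqn, mul_one]
      exact hmax _ h3
  have him : ∀ n, ‖(C q⁻¹ * z.im).coeff n‖ ≤ 1 := by
    intro n
    rw [coeff_C_mul, norm_mul, norm_inv]
    by_cases h0 : z.im.coeff n = 0
    · rw [h0, norm_zero, mul_zero]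
      exact zero_le_one
    · have h3 : z.im.coeff n ∈ S := by
        rw [hS, Finset.mem_union]
        right
        exact Finset.mem_image_of_mem _ (mem_support_iff.2 h0)
      rw [inv_mul_le_iff₀ hqn, mul_one]
      exact hmax _ h3
  obtain ⟨a, ha⟩ := lift_poly _ hre
  obtain ⟨b, hb⟩ := lift_poly _ him
  refine ⟨q⁻¹, ⟨a, b⟩, inv_ne_zero hq0, ?_, ?_⟩
  · intro h0
    have h1 : r2 a = 0 := congrArg QuadraticAlgebra.re h0
    have h2 : r2 b = 0 := congrArg QuadraticAlgebra.im h0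
    rcases hqc with ⟨n, hn⟩ | ⟨n, hn⟩
    · have h3 : a.coeff n = 1 := by
        apply inj_alg
        rw [map_one, ← coeff_map, ha, coeff_C_mul, ← hn]
        exact inv_mul_cancel₀ hq0
      have h4 : (r2 a).coeff n = 1 := by
        rw [coeff_map, h3, map_one]
      rw [h1, coeff_zero] at h4
      exact zero_ne_one h4
    · have h3 : b.coeff n = 1 := by
        apply inj_alg
        rw [map_one, ← coeff_map, hb, coeff_C_mul, ← hn]
        exact inv_mul_cancel₀ hq0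
      have h4 : (r2 b).coeff n = 1 := by
        rw [coeff_map, h3, map_one]
      rw [h2, coeff_zero] at h4
      exact zero_ne_one h4
  · rw [CC_mul]
    exact QuadraticAlgebra.ext ha hb

lemma toK_inj {f : ℤ_[2][X]} : Function.Injective (toK f) := by
  intro z w h
  have h1 := congrArg QuadraticAlgebra.re h
  have h2 := congrArg QuadraticAlgebra.im h
  exact QuadraticAlgebra.ext (map_injective _ inj_alg h1) (map_injective _ inj_alg h2)

lemma C_mulA {f : ℤ_[2][X]} (c : ℤ_[2]) (z : AA f) :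
    (⟨C c, 0⟩ : AA f) * z = ⟨C c * z.re, C c * z.im⟩ := by
  refine QuadraticAlgebra.ext ?_ ?_
  · rw [QuadraticAlgebra.re_mul]
    ring
  · rw [QuadraticAlgebra.im_mul]
    ring

/-- Part GAU -/
theorem main : S_GAU := by
  intro f hf hd
  refine ⟨part1 hf hd, fun z hz => part2 z hz, ?_⟩
  intro F t h hF e
  by_cases h0 : h = 0
  · exact ⟨0, by rw [map_zero, h0]⟩
  obtain ⟨c, h1, hc, hh1, e1⟩ := part2 h h0
  by_cases hcn : ‖c‖ < 1
  · exfalso
    set γ : ℤ_[2] := ⟨c, hcn.le⟩ with hγ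
    have hγc : algebraMap ℤ_[2] ℚ_[2] γ = c := rfl
    have hγ0 : PadicInt.toZMod (p := 2) γ = 0 := toZMod_zero hcn
    have e2 : F * h1 = (⟨C γ, 0⟩ : AA f) * t := by
      apply toK_inj
      rw [map_mul, e1, map_mul, ← e]
      have e3 : toK f (⟨C γ, 0⟩ : AA f) = CC (fK f) (C c) := by
        refine QuadraticAlgebra.ext ?_ ?_
        · show (C γ).map (algebraMap ℤ_[2] ℚ_[2]) = _
          rw [map_C, hγc]
          rfl
        · show (0 : ℤ_[2][X]).map (algebraMap ℤ_[2] ℚ_[2]) = _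
          rw [Polynomial.map_zero]
          rfl
      rw [e3]
      ring
    have e4 : to2 f F * to2 f h1 = 0 := by
      rw [← map_mul, e2, C_mulA]
      refine QuadraticAlgebra.ext ?_ ?_
      · show (C γ * t.re).map (PadicInt.toZMod (p := 2)) = 0
        rw [Polynomial.map_mul, map_C, hγ0, C_0, zero_mul]
      · show (C γ * t.im).map (PadicInt.toZMod (p := 2)) = 0
        rw [Polynomial.map_mul, map_C, hγ0, C_0, zero_mul]
    rcases part1 hf hd _ _ e4 with h5 | h5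
    · exact hF h5
    · exact hh1 h5
  · push Not at hcn
    have hci : ‖c⁻¹‖ ≤ 1 := by
      rw [norm_inv]
      exact inv_le_one_of_one_le₀ hcn
    set δ : ℤ_[2] := ⟨c⁻¹, hci⟩ with hδ
    have hδc : algebraMap ℤ_[2] ℚ_[2] δ = c⁻¹ := rfl
    refine ⟨(⟨C δ, 0⟩ : AA f) * h1, ?_⟩
    rw [map_mul, e1]
    have e3 : toK f (⟨C δ, 0⟩ : AA f) = CC (fK f) (C c⁻¹) := by
      refine QuadraticAlgebra.ext ?_ ?_
      · show (C δ).map (algebraMap ℤ_[2] ℚ_[2]) = _
        rw [map_C, hδc]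
        rfl
      · show (0 : ℤ_[2][X]).map (algebraMap ℤ_[2] ℚ_[2]) = _
        rw [Polynomial.map_zero]
        rfl
    rw [e3, ← mul_assoc, ← map_mul, ← C_mul, inv_mul_cancel₀ hc, C_1, map_one, one_mul]

end Pool.Agent.N265.PYGAU
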